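import Mathlib

/-! Counting subgroups of finite index: finiteness, subgroups of products, normal subgroups. -/

namespace Pool.Agent.P.MP_fcd401_al.H7

open Subgroup

/-- Subgroups of index at most `n`. -/
def sub (G : Type) [Group G] (n : ℕ) : Set (Subgroup G) := {H | H.index ≠ 0 ∧ H.index ≤ n}

/-- Number of subgroups of index at most `n`. -/
noncomputable def sn (G : Type) [Group G] (n : ℕ) : ℕ := (sub G n).ncard

theorem ncard_le_fib {α β : Type} (s : Set α) (t : Set β) (f : α → β) (M : ℕ) (ht : t.Finite)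
    (hf : ∀ x ∈ s, f x ∈ t) (hM : ∀ y ∈ t, {x | x ∈ s ∧ f x = y}.ncard ≤ M) :
    s.ncard ≤ M * t.ncard := by
  classical
  by_cases hs : s.Finite
  · rw [Set.ncard_eq_toFinset_card s hs, Set.ncard_eq_toFinset_card t ht]
    refine Finset.card_le_mul_card_image_of_maps_to (f := f) (by simpa using hf) M fun y hy => ?_
    have := hM y (by simpa using hy)
    rwa [← Set.ncard_coe_finset, show (↑(hs.toFinset.filter fun x => f x = y) : Set α) =
      {x | x ∈ s ∧ f x = y} by ext; simp]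
  · rw [Set.Infinite.ncard hs]
    exact Nat.zero_le _

theorem finite_hom (G Q : Type) [Group G] [Group Q] [hG : Group.FG G] [Finite Q] :
    Finite (G →* Q) := by
  obtain ⟨S, hS⟩ := hG.1
  refine Finite.of_injective (fun φ : G →* Q => fun x : S => φ x) fun φ ψ h => ?_
  exact MonoidHom.eq_of_eqOn_dense hS fun x hx => congrFun h ⟨x, hx⟩

theorem index_finite (G : Type) [Group G] [Group.FG G] (k : ℕ) (hk : k ≠ 0) :
    {H : Subgroup G | H.index = k}.Finite := by
  have := finite_hom G (Equiv.Perm (Fin k))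
  refine (Set.finite_range fun z : (G →* Equiv.Perm (Fin k)) × Fin k =>
    (MulAction.stabilizer (Equiv.Perm (Fin k)) z.2).comap z.1).subset fun H hH => ?_
  have h1 : Nat.card (G ⧸ H) = k := hH
  have : Finite (G ⧸ H) := Nat.finite_of_card_ne_zero (by rw [h1]; exact hk)
  obtain ⟨e⟩ : Nonempty ((G ⧸ H) ≃ Fin k) := by
    apply Finite.card_eq.1
    simp [h1]
  refine ⟨(e.permCongrHom.toMonoidHom.comp (MulAction.toPermHom G (G ⧸ H)),
    e (QuotientGroup.mk 1)), ?_⟩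
  ext g
  simp [Equiv.permCongrHom, QuotientGroup.eq]

theorem sub_finite (G : Type) [Group G] [Group.FG G] (n : ℕ) : (sub G n).Finite := by
  refine ((Set.finite_Icc 1 n).biUnion fun k hk =>
    index_finite G k (by have := hk.1; omega)).subset fun H hH => ?_
  simp only [Set.mem_iUnion]
  exact ⟨H.index, ⟨Nat.one_le_iff_ne_zero.2 hH.1, hH.2⟩, rfl⟩

theorem one_le_sn (G : Type) [Group G] [Group.FG G] {n : ℕ} (hn : 1 ≤ n) : 1 ≤ sn G n :=
  (Set.ncard_pos (sub_finite G n)).2 ⟨⊤, by simp [sub, hn]⟩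

section Prod

variable {A B : Type} [Group A] [Group B]

/-- First projection. -/
abbrev pr1 (H : Subgroup (A × B)) : Subgroup A := H.map (MonoidHom.fst A B)

/-- Intersection with the second factor. -/
abbrev in2 (H : Subgroup (A × B)) : Subgroup B := H.comap (MonoidHom.inr A B)

theorem graph_cnt (S : Finset A) (hS : closure (S : Set A) = ⊤) (P : Subgroup A) (N : Subgroup B)
    (hP : P.index ≠ 0) (hN : N.index ≠ 0) (𝓗 : Set (Subgroup (A × B)))
    (h : ∀ H ∈ 𝓗, pr1 H = P ∧ in2 H = N) : 𝓗.ncard ≤ N.index ^ (P.index * S.card) := by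
  have : P.FiniteIndex := ⟨hP⟩
  have : N.FiniteIndex := ⟨hN⟩
  obtain ⟨T, hT, hT'⟩ := exists_finset_card_le_mul P hS
  have ex : ∀ H : 𝓗, ∀ x : T, ∃ y, ((x.1 : A), y) ∈ H.1 := fun H x => by
    have : (x.1 : A) ∈ pr1 H.1 := (h H.1 H.2).1.symm ▸ x.1.2
    obtain ⟨z, hz, e⟩ := this
    exact ⟨z.2, by rw [← e]; exact hz⟩
  choose y hy using ex
  have key : ∀ H H' : 𝓗, (∀ x, (QuotientGroup.mk (y H x) : B ⧸ N) = QuotientGroup.mk (y H' x)) →
      H.1 ≤ H'.1 := by
    intro H H' e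
    have hle : P ≤ pr1 (H.1 ⊓ H'.1) := by
      have : (⊤ : Subgroup P) ≤ (pr1 (H.1 ⊓ H'.1)).comap P.subtype := by
        rw [← hT', closure_le]
        intro x hx
        have h1 := QuotientGroup.eq.1 (e ⟨x, hx⟩)
        rw [← (h H.1 H.2).2] at h1
        refine ⟨((x : A), y H' ⟨x, hx⟩), ⟨?_, hy H' ⟨x, hx⟩⟩, rfl⟩
        simpa using H.1.mul_mem (hy H ⟨x, hx⟩) h1
      exact fun x hx => this (x := ⟨x, hx⟩) (mem_top _)
    rintro ⟨a, b⟩ hab
    obtain ⟨⟨a', b'⟩, ⟨h1, h2⟩, rfl⟩ := hle ((h H.1 H.2).1 ▸ ⟨(a, b), hab, rfl⟩ : a ∈ P)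
    have h3 : b'⁻¹ * b ∈ in2 H.1 := by simpa using H.1.mul_mem (H.1.inv_mem h1) hab
    rw [(h H.1 H.2).2, ← (h H'.1 H'.2).2] at h3
    simpa using H'.1.mul_mem h2 h3
  have := Nat.card_le_card_of_injective
    (fun H : 𝓗 => fun x : T => (QuotientGroup.mk (y H x) : B ⧸ N)) fun H H' e =>
      Subtype.ext (le_antisymm (key H H' (congrFun e)) (key H' H (congrFun e.symm)))
  rw [Nat.card_coe_set_eq, Nat.card_fun, ← index_eq_card] at this
  refine this.trans (Nat.pow_le_pow_right (Nat.pos_of_ne_zero hN) ?_)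
  simpa using hT

theorem pair_cnt (S : Finset A) (hS : closure (S : Set A) = ⊤) (𝓟 : Set (Subgroup A))
    (𝓝 : Set (Subgroup B)) (hP : 𝓟.Finite) (hN : 𝓝.Finite) (M : ℕ) (𝓗 : Set (Subgroup (A × B)))
    (h : ∀ H ∈ 𝓗, pr1 H ∈ 𝓟 ∧ in2 H ∈ 𝓝 ∧ (pr1 H).index ≠ 0 ∧ (in2 H).index ≠ 0 ∧
      (in2 H).index ^ ((pr1 H).index * S.card) ≤ M) :
    𝓗.ncard ≤ M * (𝓟.ncard * 𝓝.ncard) := by
  rw [← Set.ncard_prod]
  refine ncard_le_fib 𝓗 (𝓟 ×ˢ 𝓝) (fun H => (pr1 H, in2 H)) M (hP.prod hN)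
    (fun H hH => ⟨(h H hH).1, (h H hH).2.1⟩) ?_
  rintro ⟨P, N⟩ -
  rcases Set.eq_empty_or_nonempty {H | H ∈ 𝓗 ∧ (pr1 H, in2 H) = (P, N)} with e | ⟨H, h1, h2⟩
  · rw [e]; simp
  obtain ⟨rfl, rfl⟩ := Prod.mk.inj h2
  obtain ⟨-, -, a, b, c⟩ := h H h1
  exact (graph_cnt S hS _ _ a b _ fun K hK => Prod.mk.inj hK.2).trans c

theorem in2_mul_pr1 (H : Subgroup (A × B)) (h : H.index ≠ 0) :
    (in2 H).index * (pr1 H).index ≤ H.index ∧ (in2 H).index ≠ 0 ∧ (pr1 H).index ≠ 0 := by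
  have h1 : H ≤ (pr1 H).prod ⊤ := fun z hz => ⟨⟨z, hz, rfl⟩, mem_top _⟩
  have h2 := relIndex_mul_index h1
  rw [index_prod, index_top, mul_one] at h2
  have h3 : H.relIndex ((pr1 H).prod ⊤) ≠ 0 := fun e => h (by rw [← h2, e, zero_mul])
  have h4 : (MonoidHom.inr A B).range ≤ (pr1 H).prod ⊤ := by
    rintro _ ⟨y, rfl⟩
    exact ⟨(pr1 H).one_mem, mem_top _⟩
  rw [index_comap]
  exact ⟨h2 ▸ Nat.mul_le_mul_right _ (relIndex_le_of_le_right h4 h3),
    fun e => h3 (relIndex_eq_zero_of_le_right h4 e), fun e => h (by rw [← h2, e, mul_zero])⟩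

end Prod

theorem sn_int (n : ℕ) : sn (Multiplicative ℤ) n ≤ n + 1 := by
  have : ∀ H : Subgroup (Multiplicative ℤ), H.toAddSubgroup' =
      AddSubgroup.zmultiples (H.index : ℤ) := fun H => by
    obtain ⟨a, ha⟩ := Int.subgroup_cyclic H.toAddSubgroup'
    have h1 : H.toAddSubgroup'.index = H.index := rfl
    rw [← h1, ha, ← AddSubgroup.zmultiples_eq_closure, Int.index_zmultiples,
      Int.zmultiples_natAbs]
  have h := Set.ncard_le_ncard_of_injOn (s := sub (Multiplicative ℤ) n) (t := Set.Iic n)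
    (fun H => H.index) (fun H hH => hH.2) (fun H _ K _ e => by
      apply Subgroup.toAddSubgroup'.injective
      rw [this, this]
      exact congrArg (fun k : ℕ => AddSubgroup.zmultiples (k : ℤ)) e) (Set.finite_Iic n)
  simpa [sn] using h

/-- Normal subgroups of index at most `n`. -/
def nrm (G : Type) [Group G] (n : ℕ) : Set (Subgroup G) := {N | N ∈ sub G n ∧ N.Normal}

theorem nrm_cnt (G : Type) [Group G] [Group.FG G] (S : Finset G) (hS : closure (S : Set G) = ⊤)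
    (n : ℕ) : (nrm G n).ncard ≤ 2 ^ (n * S.card) * (sn G (n / 2) * (n + 1)) + 1 := by
  classical
  have ex : ∀ N : Subgroup G, ∃ g, N ≠ ⊤ → g ∉ N := fun N => by
    by_cases h : N = ⊤
    · exact ⟨1, fun h' => absurd h h'⟩
    · obtain ⟨g, hg⟩ := not_forall.1 fun h' => h ((eq_top_iff' N).2 h')
      exact ⟨g, fun _ => hg⟩
  choose g hg using ex
  let F : (N : Subgroup G) → N.Normal → Subgroup (G × Multiplicative ℤ) := fun N _ =>
    MonoidHom.eqLocus ((QuotientGroup.mk' N).comp (MonoidHom.fst _ _))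
      (((QuotientGroup.mk' N).comp (zpowersHom G (g N))).comp (MonoidHom.snd _ _))
  have mem : ∀ N hN z, z ∈ F N hN ↔ z.1⁻¹ * g N ^ z.2.toAdd ∈ N := fun N hN z => by
    rw [← QuotientGroup.eq]
    rfl
  let Φ : Subgroup G → Subgroup (G × Multiplicative ℤ) := fun N =>
    if h : N.Normal then F N h else ⊤
  have h1 : (nrm G n \ {⊤}).ncard ≤ 2 ^ (n * S.card) * (sn G (n / 2) * (n + 1)) := by
    rw [← Set.InjOn.ncard_image (f := Φ) (fun N hN K hK e => by
      simp only [Φ, dif_pos hN.1.2, dif_pos hK.1.2] at e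
      ext x
      have := SetLike.ext_iff.1 e (x⁻¹, 1)
      simpa [mem] using this)]
    refine (pair_cnt S hS (sub G (n / 2)) (sub (Multiplicative ℤ) n) (sub_finite _ _)
      (sub_finite _ _) (2 ^ (n * S.card)) _ ?_).trans
      (Nat.mul_le_mul_left _ (Nat.mul_le_mul_left _ (sn_int n)))
    rintro _ ⟨N, ⟨⟨⟨h0, hn⟩, hN⟩, ht⟩, rfl⟩
    simp only [Φ, dif_pos hN]
    have a1 : N ≤ pr1 (F N hN) := fun x hx => ⟨(x, 1), by simpa [mem] using hx, rfl⟩
    have a2 : in2 (F N hN) = N.comap (zpowersHom G (g N)) := by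
      ext j
      simp [mem]
    have a3 : (zpowersHom G (g N)).range ≤ pr1 (F N hN) := by
      rintro _ ⟨j, rfl⟩
      exact ⟨(g N ^ j.toAdd, j), by simp [mem], rfl⟩
    have a4 := relIndex_mul_index a1
    have a5 : N.relIndex (pr1 (F N hN)) ≠ 0 := fun e => h0 (by rw [← a4, e, zero_mul])
    have a6 : (pr1 (F N hN)).index ≠ 0 := fun e => h0 (by rw [← a4, e, mul_zero])
    have a7 : (in2 (F N hN)).index ≤ N.relIndex (pr1 (F N hN)) := by
      rw [a2, index_comap]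
      exact relIndex_le_of_le_right a3 a5
    have a8 : (in2 (F N hN)).index ≠ 0 := by
      rw [a2, index_comap]
      exact fun e => a5 (relIndex_eq_zero_of_le_right a3 e)
    have a9 : (in2 (F N hN)).index ≠ 1 := by
      rw [Ne, index_eq_one, a2]
      intro e
      have : Multiplicative.ofAdd (1 : ℤ) ∈ N.comap (zpowersHom G (g N)) := e ▸ mem_top _
      exact hg N ht (by simpa using this)
    have b1 : (in2 (F N hN)).index * (pr1 (F N hN)).index ≤ n :=
      (Nat.mul_le_mul_right _ a7).trans (a4 ▸ hn)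
    have b2 : 2 * (pr1 (F N hN)).index ≤ (in2 (F N hN)).index * (pr1 (F N hN)).index :=
      Nat.mul_le_mul_right _ (by omega)
    have b3 := Nat.le_mul_of_pos_right (in2 (F N hN)).index (Nat.pos_of_ne_zero a6)
    refine ⟨⟨a6, by omega⟩, ⟨a8, by omega⟩, a6, a8,
      (Nat.pow_le_pow_left Nat.lt_two_pow_self.le _).trans ?_⟩
    rw [← pow_mul, ← mul_assoc]
    exact Nat.pow_le_pow_right two_pos (Nat.mul_le_mul_right _ b1)
  have h2 : nrm G n ⊆ insert ⊤ (nrm G n \ {⊤}) := by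
    intro N hN
    by_cases h : N = ⊤
    · exact Or.inl h
    · exact Or.inr ⟨hN, h⟩
  exact (Set.ncard_le_ncard h2 (((sub_finite G n).subset fun N hN => hN.1.1).insert _)).trans
    ((Set.ncard_insert_le _ _).trans (Nat.add_le_add_right h1 1))

end Pool.Agent.P.MP_fcd401_al.H7
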