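import Pool.Agent.P.MP_fcd401_al.H7.Cnt

/-! The wreath product with the group of order two halves the subgroup growth exponent. -/

namespace Pool.Agent.P.MP_fcd401_al.H7

open Subgroup

/-- The wreath product of `G` with the group of order two. -/
@[ext] structure Wr (G : Type) where
  a : G
  b : G
  s : Bool

variable {G : Type} [Group G]

instance : Mul (Wr G) := ⟨fun x y =>
  ⟨x.a * cond x.s y.b y.a, x.b * cond x.s y.a y.b, xor x.s y.s⟩⟩

instance : One (Wr G) := ⟨⟨1, 1, false⟩⟩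

instance : Inv (Wr G) := ⟨fun x => ⟨(cond x.s x.b x.a)⁻¹, (cond x.s x.a x.b)⁻¹, x.s⟩⟩

theorem Wr.mul_def (x y : Wr G) :
    x * y = ⟨x.a * cond x.s y.b y.a, x.b * cond x.s y.a y.b, xor x.s y.s⟩ := rfl

theorem Wr.one_def : (1 : Wr G) = ⟨1, 1, false⟩ := rfl

theorem Wr.inv_def (x : Wr G) :
    x⁻¹ = ⟨(cond x.s x.b x.a)⁻¹, (cond x.s x.a x.b)⁻¹, x.s⟩ := rfl

instance : Group (Wr G) := Group.ofLeftAxioms
  (by rintro ⟨a, b, _ | _⟩ ⟨c, d, _ | _⟩ ⟨e, f, _ | _⟩ <;> simp [Wr.mul_def, mul_assoc])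
  (by rintro ⟨a, b, s⟩; simp [Wr.mul_def, Wr.one_def])
  (by rintro ⟨a, b, _ | _⟩ <;> simp [Wr.mul_def, Wr.one_def, Wr.inv_def])

/-- The base group. -/
def io (G : Type) [Group G] : G × G →* Wr G where
  toFun z := ⟨z.1, z.2, false⟩
  map_one' := rfl
  map_mul' _ _ := rfl

theorem io_apply (z : G × G) : io G z = ⟨z.1, z.2, false⟩ := rfl

theorem io_inj : Function.Injective (io G) := fun _ _ h =>
  Prod.ext (congrArg Wr.a h) (congrArg Wr.b h)

theorem mem_io (x : Wr G) : x ∈ (io G).range ↔ x.s = false :=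
  ⟨by rintro ⟨z, rfl⟩; rfl, fun h => ⟨(x.a, x.b), by ext <;> simp [io_apply, h]⟩⟩

theorem index_io : (io G).range.index = 2 := by
  rw [index_eq_two_iff]
  refine ⟨⟨1, 1, true⟩, ?_⟩
  rintro ⟨a, b, _ | _⟩ <;> rw [mem_io, mem_io] <;> simp [Wr.mul_def]

theorem index_map_io (H : Subgroup (G × G)) : (H.map (io G)).index = H.index * 2 := by
  rw [index_map_of_injective _ io_inj, index_io]

instance [Group.FG G] : Group.FG (Wr G) := by
  have h1 : (io G).range.FG := (Group.fg_iff_subgroup_fg _).1 inferInstance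
  have h2 : (closure {(⟨1, 1, true⟩ : Wr G)}).FG := ⟨{⟨1, 1, true⟩}, by simp⟩
  refine ⟨(?_ : (io G).range ⊔ closure {(⟨1, 1, true⟩ : Wr G)} = ⊤) ▸ h1.sup h2⟩
  rw [eq_top_iff]
  rintro ⟨a, b, _ | _⟩ -
  · exact mem_sup_left ((mem_io _).2 rfl)
  · have := mul_mem_sup (S := (io G).range) ((mem_io ⟨a, b, false⟩).2 rfl)
      (subset_closure (Set.mem_singleton (⟨1, 1, true⟩ : Wr G)))
    simpa [Wr.mul_def] using this

theorem wr_rf (h : ∀ g : G, g ≠ 1 → ∃ H : Subgroup G, H.FiniteIndex ∧ g ∉ H) (x : Wr G)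
    (hx : x ≠ 1) : ∃ H : Subgroup (Wr G), H.FiniteIndex ∧ x ∉ H := by
  obtain ⟨a, b, _ | _⟩ := x
  · have : ∃ K : Subgroup (G × G), K.index ≠ 0 ∧ (a, b) ∉ K := by
      by_cases ha : a = 1
      · obtain ⟨H, h1, h2⟩ := h b fun hb => hx (by rw [ha, hb]; rfl)
        exact ⟨(⊤ : Subgroup G).prod H, by simpa [index_prod] using h1.1, fun e => h2 e.2⟩
      · obtain ⟨H, h1, h2⟩ := h a ha
        exact ⟨H.prod ⊤, by simpa [index_prod] using h1.1, fun e => h2 e.1⟩
    obtain ⟨K, h1, h2⟩ := this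
    refine ⟨K.map (io G), ⟨by rw [index_map_io]; omega⟩, ?_⟩
    rintro ⟨z, hz, e⟩
    exact h2 (io_inj (e.trans (io_apply (a, b)).symm) ▸ hz)
  · exact ⟨(io G).range, ⟨by rw [index_io]; omega⟩, by rw [mem_io]; simp⟩

theorem sn_lower [Group.FG G] (n : ℕ) : sn G (n / 2) ≤ sn (Wr G) n := by
  refine Set.ncard_le_ncard_of_injOn (fun P => (P.prod ⊤).map (io G)) (fun P hP => ?_)
    (fun P _ Q _ e => ?_) (sub_finite _ n)
  · have h1 := hP.1
    have h2 := hP.2
    constructor <;> rw [index_map_io, index_prod, index_top] <;> omega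
  · ext x
    simpa [mem_prod] using SetLike.ext_iff.1 (map_injective io_inj e) (x, 1)

/-- Second projection. -/
abbrev pr2 (H : Subgroup (G × G)) : Subgroup G := H.map (MonoidHom.snd G G)

theorem pr_mul (H : Subgroup (G × G)) (h : H.index ≠ 0) :
    (pr1 H).index * (pr2 H).index ≤ H.index := by
  have : H.FiniteIndex := ⟨h⟩
  rw [← index_prod]
  exact index_antitone fun z hz => ⟨⟨z, hz, rfl⟩, ⟨z, hz, rfl⟩⟩

/-- The subgroups of the base group that have to be counted. -/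
def cls (G : Type) [Group G] (n : ℕ) : Set (Subgroup (G × G)) :=
  {H | H ∈ sub (G × G) n ∧ (pr1 H).index ≤ (pr2 H).index ∧ in2 H ∈ sub G (n / 2) ∪ nrm G n}

theorem cls_cnt [Group.FG G] (S : Finset G) (hS : closure (S : Set G) = ⊤) (n : ℕ) :
    (cls G n).ncard ≤ 2 ^ (2 * n * S.card) * (sn G n.sqrt * (sn G (n / 2) + (nrm G n).ncard)) := by
  refine (pair_cnt S hS (sub G n.sqrt) (sub G (n / 2) ∪ nrm G n) (sub_finite _ _)
    ((sub_finite _ _).union ((sub_finite G n).subset fun N hN => hN.1)) (2 ^ (2 * n * S.card)) _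
    ?_).trans (Nat.mul_le_mul_left _ (Nat.mul_le_mul_left _ (Set.ncard_union_le _ _)))
  rintro H ⟨⟨h0, hn⟩, h1, h2⟩
  obtain ⟨a1, a2, a3⟩ := in2_mul_pr1 H h0
  have a4 : (pr1 H).index ≤ n.sqrt :=
    Nat.le_sqrt.2 ((Nat.mul_le_mul_left _ h1).trans ((pr_mul H h0).trans hn))
  have a5 : (in2 H).index ≤ 2 ^ (2 * n.sqrt) := by
    have b1 := Nat.le_mul_of_pos_right (in2 H).index (Nat.pos_of_ne_zero a3)
    have b2 := Nat.lt_succ_sqrt n
    have b3 : n.sqrt + 1 ≤ 2 ^ n.sqrt := Nat.lt_two_pow_self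
    have b4 := Nat.mul_le_mul b3 b3
    rw [two_mul, pow_add]
    exact (b1.trans (a1.trans hn)).trans (b2.le.trans b4)
  refine ⟨⟨a3, a4⟩, h2, a3, a2, (Nat.pow_le_pow_left a5 _).trans ?_⟩
  rw [← pow_mul, ← mul_assoc]
  refine Nat.pow_le_pow_right two_pos (Nat.mul_le_mul_right _ ?_)
  rw [mul_assoc]
  exact Nat.mul_le_mul_left _ ((Nat.mul_le_mul_left _ a4).trans (Nat.sqrt_le n))

theorem cls_finite [Group.FG G] (n : ℕ) : (cls G n).Finite :=
  (sub_finite _ n).subset fun _ h => h.1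

theorem mem_cls (n : ℕ) (H : Subgroup (G × G)) (h : H ∈ sub (G × G) (n / 2))
    (h1 : (pr1 H).index ≤ (pr2 H).index) : H ∈ cls G n := by
  obtain ⟨a1, a2, a3⟩ := in2_mul_pr1 H h.1
  have b1 := Nat.le_mul_of_pos_right (in2 H).index (Nat.pos_of_ne_zero a3)
  have := h.2
  exact ⟨⟨h.1, by omega⟩, h1, Or.inl ⟨a2, by omega⟩⟩

theorem caseA [Group.FG G] (n : ℕ) :
    {H | H ∈ sub (Wr G) n ∧ H ≤ (io G).range}.ncard ≤ 2 * (cls G n).ncard := by
  let e : G × G ≃* G × G := MulEquiv.prodComm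
  have h1 : {H | H ∈ sub (Wr G) n ∧ H ≤ (io G).range} ⊆
      (fun K => K.map (io G)) '' (cls G n ∪ (fun K => K.map (e : G × G →* G × G)) '' cls G n) := by
    rintro H ⟨⟨h0, hn⟩, hH⟩
    refine ⟨H.comap (io G), ?_, map_comap_eq_self hH⟩
    have a1 := index_map_io (H.comap (io G))
    rw [map_comap_eq_self hH] at a1
    generalize H.comap (io G) = K at a1
    rcases le_total (pr1 K).index (pr2 K).index with h | h
    · exact Or.inl (mem_cls n K ⟨by omega, by omega⟩ h)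
    · refine Or.inr ⟨K.map (e : G × G →* G × G), mem_cls n _ ?_ ?_, ?_⟩
      · constructor <;> rw [index_map_equiv] <;> omega
      · rw [pr1, pr2, map_map, map_map]
        exact h
      · simp only [map_map]
        exact map_id K
  refine (Set.ncard_le_ncard h1 (((cls_finite n).union ((cls_finite n).image _)).image _)).trans
    ((Set.ncard_image_le ((cls_finite n).union ((cls_finite n).image _))).trans
      ((Set.ncard_union_le _ _).trans ?_))
  have := Set.ncard_image_le (f := fun K : Subgroup (G × G) => K.map (e : G × G →* G × G))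
    (cls_finite (G := G) n)
  omega

theorem caseB_mem (n : ℕ) (H : Subgroup (Wr G)) (h : H ∈ sub (Wr G) n) (u v : G)
    (hγ : (⟨u, v, true⟩ : Wr G) ∈ H) : H.comap (io G) ∈ cls G n := by
  have h0 : H.relIndex ⊤ ≠ 0 := by simpa using h.1
  have a0 : (H.comap (io G)).index ≠ 0 := by
    rw [index_comap]
    exact fun e => h0 (relIndex_eq_zero_of_le_right le_top e)
  have an : (H.comap (io G)).index ≤ n := by
    rw [index_comap]
    exact (relIndex_le_of_le_right le_top h0).trans (by simpa using h.2)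
  have hc : ∀ x y, (x, y) ∈ H.comap (io G) → (u * y * u⁻¹, v * x * v⁻¹) ∈ H.comap (io G) := by
    intro x y hxy
    have := H.mul_mem (H.mul_mem hγ hxy) (H.inv_mem hγ)
    simpa [Wr.mul_def, Wr.inv_def, io_apply] using this
  generalize H.comap (io G) = K at a0 an hc
  obtain ⟨a1, a2, a3⟩ := in2_mul_pr1 K a0
  have a4 : (pr2 K).index ≠ 0 := by
    have : K.FiniteIndex := ⟨a0⟩
    exact ne_zero_of_dvd_ne_zero a0 (index_map_dvd K Prod.snd_surjective)
  have b1 : (pr1 K).index ≤ (pr2 K).index := by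
    rw [← index_map_equiv (pr2 K) (MulAut.conj u)]
    have : ((pr2 K).map (MulAut.conj u : G →* G)).FiniteIndex := ⟨by rwa [index_map_equiv]⟩
    refine index_antitone ?_
    rintro _ ⟨_, ⟨⟨x, y⟩, hz, rfl⟩, rfl⟩
    exact ⟨_, hc x y hz, rfl⟩
  have b2 : (pr2 K).index ≤ (pr1 K).index := by
    rw [← index_map_equiv (pr1 K) (MulAut.conj v)]
    have : ((pr1 K).map (MulAut.conj v : G →* G)).FiniteIndex := ⟨by rwa [index_map_equiv]⟩
    refine index_antitone ?_
    rintro _ ⟨_, ⟨⟨x, y⟩, hz, rfl⟩, rfl⟩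
    exact ⟨_, hc x y hz, rfl⟩
  refine ⟨⟨a0, an⟩, b1, ?_⟩
  by_cases h1 : (pr1 K).index = 1
  · refine Or.inr ⟨⟨a2, by rw [h1] at a1; omega⟩, ⟨fun y hy g => ?_⟩⟩
    have h2 : pr2 K = ⊤ := index_eq_one.1 (by omega)
    obtain ⟨⟨x, g'⟩, hz, rfl⟩ : g ∈ pr2 K := h2 ▸ mem_top g
    simpa using K.mul_mem (K.mul_mem hz hy) (K.inv_mem hz)
  · have := Nat.mul_le_mul_left (in2 K).index (show 2 ≤ (pr1 K).index by omega)
    exact Or.inl ⟨a2, by omega⟩

theorem caseB_key (K : Subgroup (G × G)) (H H' : Subgroup (Wr G)) (z z' : G × G)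
    (h1 : (⟨z.1, z.2, true⟩ : Wr G) ∈ H) (h2 : (⟨z'.1, z'.2, true⟩ : Wr G) ∈ H')
    (e1 : H.comap (io G) = K) (e2 : H'.comap (io G) = K) (e : z * z'⁻¹ ∈ K) : H ≤ H' := by
  have a1 : io G (z * z'⁻¹) ∈ H' := by
    rw [← e2] at e
    exact e
  have a2 : (⟨z.1, z.2, true⟩ : Wr G) ∈ H' := by
    have := H'.mul_mem a1 h2
    simpa [Wr.mul_def, io_apply] using this
  have a3 : ∀ x ∈ H, x.s = false → x ∈ H' := by
    intro x hx hs
    obtain ⟨k, rfl⟩ := (mem_io x).2 hs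
    have : k ∈ H.comap (io G) := hx
    rw [e1, ← e2] at this
    exact this
  intro x hx
  by_cases hs : x.s = false
  · exact a3 x hx hs
  · have := a3 _ (H.mul_mem hx (H.inv_mem h1)) (by simpa [Wr.mul_def, Wr.inv_def] using hs)
    have h3 := H'.mul_mem this a2
    rwa [inv_mul_cancel_right] at h3

theorem caseB [Group.FG G] (n : ℕ) :
    {H | H ∈ sub (Wr G) n ∧ ¬ H ≤ (io G).range}.ncard ≤ n * (cls G n).ncard := by
  have ex : ∀ H : Subgroup (Wr G), ∃ z : G × G, ¬ H ≤ (io G).range →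
      (⟨z.1, z.2, true⟩ : Wr G) ∈ H := fun H => by
    by_cases h : H ≤ (io G).range
    · exact ⟨1, fun h' => absurd h h'⟩
    · obtain ⟨⟨a, b, s⟩, h1, h2⟩ := SetLike.not_le_iff_exists.1 h
      rw [mem_io, Bool.not_eq_false] at h2
      obtain rfl : s = true := h2
      exact ⟨(a, b), fun _ => h1⟩
  choose z hz using ex
  refine ncard_le_fib {H | H ∈ sub (Wr G) n ∧ ¬ H ≤ (io G).range} (cls G n)
    (fun H : Subgroup (Wr G) => H.comap (io G)) n (cls_finite n)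
    (fun H hH => caseB_mem n H hH.1 (z H).1 (z H).2 (hz H hH.2)) fun K hK => ?_
  have : K.FiniteIndex := ⟨hK.1.1⟩
  refine le_trans ?_ hK.1.2
  have h1 : K.index = (Set.univ : Set ((G × G) ⧸ K)).ncard := by
    rw [Set.ncard_univ, index_eq_card]
  rw [h1]
  refine Set.ncard_le_ncard_of_injOn (fun H => (QuotientGroup.mk (z H)⁻¹ : (G × G) ⧸ K))
    (fun _ _ => Set.mem_univ _) (fun H hH H' hH' e => ?_) Set.finite_univ
  have e1 : z H * (z H')⁻¹ ∈ K := by
    have := QuotientGroup.eq.1 e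
    rwa [inv_inv] at this
  have e2 : z H' * (z H)⁻¹ ∈ K := by
    have := K.inv_mem e1
    rwa [mul_inv_rev, inv_inv] at this
  exact le_antisymm (caseB_key K H H' _ _ (hz H hH.1.2) (hz H' hH'.1.2) hH.2 hH'.2 e1)
    (caseB_key K H' H _ _ (hz H' hH'.1.2) (hz H hH.1.2) hH'.2 hH.2 e2)

theorem sn_upper [hG : Group.FG G] : ∃ C : ℕ, ∀ n, 2 ≤ n →
    sn (Wr G) n ≤ 2 ^ (C * n) * (sn G n.sqrt * sn G (n / 2)) := by
  obtain ⟨S, hS⟩ := hG.1
  refine ⟨3 * S.card + 3, fun n hn => ?_⟩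
  have h1 : sub (Wr G) n = {H | H ∈ sub (Wr G) n ∧ H ≤ (io G).range} ∪
      {H | H ∈ sub (Wr G) n ∧ ¬ H ≤ (io G).range} := by
    ext H
    simp only [Set.mem_union, Set.mem_ofPred_eq]
    tauto
  have h2 : sn (Wr G) n ≤ (n + 2) * (cls G n).ncard := by
    rw [sn, h1]
    have := caseA (G := G) n
    have := caseB (G := G) n
    refine (Set.ncard_union_le _ _).trans ?_
    rw [add_mul]
    omega
  have h3 := cls_cnt S hS n
  have h4 := nrm_cnt G S hS n
  have h5 : 1 ≤ sn G (n / 2) := one_le_sn G (by omega)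
  have h6 : n + 2 ≤ 2 ^ n := by
    obtain ⟨m, rfl⟩ := Nat.exists_eq_add_of_le hn
    have : m < 2 ^ m := Nat.lt_two_pow_self
    rw [pow_add]
    omega
  have h7 : 1 ≤ 2 ^ (n * S.card) := Nat.one_le_two_pow
  have h8 : sn G (n / 2) + (nrm G n).ncard ≤ 2 ^ (n * S.card) * (2 ^ n * 2 ^ n) * sn G (n / 2) := by
    have a1 : n + 3 ≤ 2 ^ n * 2 ^ n := by nlinarith
    have a2 := Nat.mul_le_mul h7 (le_refl (sn G (n / 2)))
    have a3 := Nat.mul_le_mul_left (2 ^ (n * S.card) * sn G (n / 2)) a1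
    nlinarith
  calc _ ≤ 2 ^ n * (2 ^ (2 * n * S.card) * (sn G n.sqrt *
        (2 ^ (n * S.card) * (2 ^ n * 2 ^ n) * sn G (n / 2)))) :=
        h2.trans (Nat.mul_le_mul h6 (h3.trans (Nat.mul_le_mul_left _ (Nat.mul_le_mul_left _ h8))))
    _ = _ := by ring

end Pool.Agent.P.MP_fcd401_al.H7
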