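import Pool.Agent.P.MP_fcd401_al.Asymp
import Pool.Agent.P.MP_fcd401_al.H7.Half

/-! Several copies of a set of relators multiply the exponent; the asymptotic lemmas. -/

namespace Pool.Agent.P.MP_fcd401_al.H7

open Filter Topology

/-- `c` disjoint copies of a set of relators. -/
def RelP {S : Type} (c : ℕ) (R : Set (FreeGroup S)) : Set (FreeGroup (Fin c × S)) :=
  {r' | ∃ i : Fin c, ∃ r ∈ R, r' = FreeGroup.map (Prod.mk i) r}

theorem lift_map {S T Γ : Type} [Group Γ] (f : S → T) (x : T → Γ) (r : FreeGroup S) :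
    FreeGroup.lift x (FreeGroup.map f r) = FreeGroup.lift (fun s => x (f s)) r := by
  have : (FreeGroup.lift x).comp (FreeGroup.map f) = FreeGroup.lift (fun s => x (f s)) := by
    ext s
    simp
  exact DFunLike.congr_fun this r

theorem sol_relP {S : Type} (c : ℕ) (R : Set (FreeGroup S)) (O : Type) :
    (Sol (RelP c R) O).ncard = (Sol R O).ncard ^ c := by
  have e : Sol (RelP c R) O ≃ (Fin c → Sol R O) :=
    { toFun := fun x i => ⟨fun s => x.1 (i, s), fun r hr => by
        rw [← lift_map (Prod.mk i) x.1 r]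
        exact x.2 _ ⟨i, r, hr, rfl⟩⟩
      invFun := fun y => ⟨fun z => (y z.1).1 z.2, by
        rintro _ ⟨i, r, hr, rfl⟩
        rw [lift_map]
        exact (y i).2 r hr⟩
      left_inv := fun _ => rfl
      right_inv := fun _ => rfl }
  rw [← Nat.card_coe_set_eq, ← Nat.card_coe_set_eq, Nat.card_congr e, Nat.card_fun]
  simp

theorem sg_le_max {S : Type} [Finite S] (R : Set (FreeGroup S)) (n M : ℕ)
    (h : ∀ k, 1 ≤ k → k ≤ n → (Sol R (Fin k)).ncard ≤ M) : sg R n ≤ n * n * M := by
  refine (sg_le_sum R n).trans ((Finset.sum_le_card_nsmul _ _ (n * M) fun k hk => ?_).trans ?_)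
  · obtain ⟨h1, h2⟩ := Finset.mem_Icc.1 hk
    exact Nat.mul_le_mul h2 (h k h1 h2)
  · simp [mul_assoc]

theorem sol_fin_le {S : Type} [Finite S] (R : Set (FreeGroup S)) {n k : ℕ} (h1 : 1 ≤ k)
    (h2 : k ≤ n) : (Sol R (Fin k)).ncard ≤ sg R n := by
  have : Nonempty (Fin k) := ⟨⟨0, h1⟩⟩
  exact sol_le_sg R n (by simpa using h2)

theorem sgP_upper {S : Type} [Finite S] (c : ℕ) (R : Set (FreeGroup S)) (n : ℕ) :
    sg (RelP c R) n ≤ n * n * sg R n ^ c :=
  sg_le_max _ n _ fun k h1 h2 => by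
    rw [sol_relP]
    exact Nat.pow_le_pow_left (sol_fin_le R h1 h2) c

theorem sgP_lower {S : Type} [Finite S] (c : ℕ) (R : Set (FreeGroup S)) (n : ℕ) (hn : 1 ≤ n) :
    sg R n ^ c ≤ (n * n) ^ c * sg (RelP c R) n := by
  obtain ⟨k, hk, hm⟩ := Finset.exists_max_image (Finset.Icc 1 n)
    (fun k => (Sol R (Fin k)).ncard) ⟨1, by simp [hn]⟩
  obtain ⟨h1, h2⟩ := Finset.mem_Icc.1 hk
  have h3 := sg_le_max R n _ fun j j1 j2 => hm j (Finset.mem_Icc.2 ⟨j1, j2⟩)
  refine (Nat.pow_le_pow_left h3 c).trans ?_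
  rw [mul_pow, ← sol_relP]
  exact Nat.mul_le_mul_left _ (sol_fin_le _ h1 h2)

/-- The logarithm of the factorial. -/
noncomputable abbrev lf (n : ℕ) : ℝ := Real.log (n.factorial : ℝ)

theorem lf_nonneg (n : ℕ) : 0 ≤ lf n := Real.log_natCast_nonneg _

theorem lf_ev : ∀ᶠ n : ℕ in atTop, 0 < lf n := by
  filter_upwards [eventually_ge_atTop 2] with n hn
  exact Real.log_pos (by exact_mod_cast Nat.one_lt_factorial.2 hn)

theorem tend_n : Tendsto (fun n : ℕ => (n : ℝ) / lf n) atTop (𝓝 0) := by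
  have h : Tendsto (fun n : ℕ => 1 / (Real.log n - 1)) atTop (𝓝 0) :=
    (tendsto_atTop_add_const_right _ (-1) tendsto_log_nat).const_div_atTop 1
  refine squeeze_zero' (Eventually.of_forall fun n => div_nonneg n.cast_nonneg (lf_nonneg n)) ?_ h
  filter_upwards [lf_ev, tendsto_log_nat.eventually_gt_atTop 1] with n h1 h2
  rw [div_le_div_iff₀ h1 (by linarith)]
  have := log_fact_ge n
  linarith

theorem squeeze {u v : ℕ → ℝ} {C γ : ℝ} (h : ∀ᶠ n : ℕ in atTop, |u n - v n| ≤ C * n)
    (hv : Tendsto (fun n => v n / lf n) atTop (𝓝 γ)) :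
    Tendsto (fun n => u n / lf n) atTop (𝓝 γ) := by
  have h1 : Tendsto (fun n : ℕ => (u n - v n) / lf n) atTop (𝓝 0) := by
    refine squeeze_zero_norm' (a := fun n : ℕ => C * ((n : ℝ) / lf n)) ?_
      (by simpa using tend_n.const_mul C)
    filter_upwards [h] with n hn
    rw [Real.norm_eq_abs, abs_div, abs_of_nonneg (lf_nonneg n), ← mul_div_assoc]
    exact div_le_div_of_nonneg_right hn (lf_nonneg n)
  have := hv.add h1
  rw [add_zero] at this
  exact this.congr fun n => by ring

theorem log_le_nat {a b : ℕ} (ha : 1 ≤ a) (h : a ≤ b) : Real.log a ≤ Real.log b :=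
  Real.log_le_log (by exact_mod_cast ha) (by exact_mod_cast h)

theorem tend_half : Tendsto (fun n : ℕ => lf (n / 2) / lf n) atTop (𝓝 (1 / 2)) := by
  refine squeeze (v := fun n => lf n / 2) (C := Real.log 2) (Eventually.of_forall fun n => ?_) ?_
  · have f0 : ((n / 2).factorial : ℝ) ≠ 0 := by exact_mod_cast Nat.factorial_ne_zero _
    have h1 : (n / 2).factorial * (n / 2).factorial ≤ n.factorial :=
      (Nat.le_of_dvd (Nat.factorial_pos _) (Nat.factorial_mul_factorial_dvd_factorial_add _ _)).trans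
        (Nat.factorial_le (by omega))
    have h2 : n.factorial ≤ 2 ^ (2 * n) * ((n / 2).factorial * (n / 2).factorial) := by
      rw [← Nat.choose_mul_factorial_mul_factorial (Nat.div_le_self n 2)]
      have a1 := Nat.choose_le_two_pow n (n / 2)
      have a2 : (n - n / 2).factorial ≤ (n / 2 + 1) * (n / 2).factorial :=
        (Nat.factorial_le (by omega)).trans (Nat.factorial_succ _).le
      have a3 : n / 2 + 1 ≤ 2 ^ n := by
        have : n < 2 ^ n := Nat.lt_two_pow_self
        omega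
      calc _ ≤ 2 ^ n * (n / 2).factorial * (2 ^ n * (n / 2).factorial) :=
            Nat.mul_le_mul (Nat.mul_le_mul_right _ a1) (a2.trans (Nat.mul_le_mul_right _ a3))
        _ = _ := by ring
    have h3 := log_le_nat (Nat.mul_pos (Nat.factorial_pos _) (Nat.factorial_pos _)) h1
    have h4 := log_le_nat (Nat.factorial_pos _) h2
    push_cast at h3 h4
    rw [Real.log_mul f0 f0] at h3
    rw [Real.log_mul (by positivity) (mul_ne_zero f0 f0), Real.log_mul f0 f0, Real.log_pow] at h4
    push_cast at h4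
    have h5 : 0 ≤ Real.log 2 * n := mul_nonneg (Real.log_nonneg one_le_two) n.cast_nonneg
    rw [abs_le]
    constructor <;> linarith
  · refine tendsto_const_nhds.congr' ?_
    filter_upwards [lf_ev] with n hn
    field_simp

theorem growthP (c : ℕ) (β : ℝ) (h0 : 0 ≤ β) (h1 : β ≤ 1) :
    Tendsto (fun n : ℕ => Real.log (sn (Grp (RelP c (Rel β))) n) / lf n) atTop
      (𝓝 (c * (72 + β / 3))) := by
  have := grp_fg (Rel β)
  have := grp_fg (RelP c (Rel β))
  refine squeeze (v := fun n => c * Real.log (sg (Rel β) n)) (C := 2 * c + 2) ?_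
    (((growth β h0 h1).const_mul (c : ℝ)).congr fun n => (mul_div_assoc _ _ _).symm)
  filter_upwards [eventually_ge_atTop 1] with n hn
  have a1 : 1 ≤ sg (Rel β) n := one_le_sn (Grp (Rel β)) hn
  have a2 : 1 ≤ sg (RelP c (Rel β)) n := one_le_sn (Grp (RelP c (Rel β))) hn
  have b1 := log_le_nat a2 (sgP_upper c (Rel β) n)
  have b2 := log_le_nat (Nat.one_le_pow _ _ a1) (sgP_lower c (Rel β) n hn)
  have n0 : (0 : ℝ) < n := by exact_mod_cast hn
  have c1 : (0 : ℝ) < sg (Rel β) n := by exact_mod_cast a1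
  have c2 : (0 : ℝ) < sg (RelP c (Rel β)) n := by exact_mod_cast a2
  push_cast at b1 b2
  rw [Real.log_mul (by positivity) (by positivity), Real.log_mul n0.ne' n0.ne', Real.log_pow] at b1
  rw [Real.log_mul (by positivity) c2.ne', Real.log_pow, Real.log_pow,
    Real.log_mul n0.ne' n0.ne'] at b2
  have d1 : Real.log n ≤ n := (Real.log_le_sub_one_of_pos n0).trans (by linarith)
  have d2 := mul_le_mul_of_nonneg_left d1 (c.cast_nonneg (α := ℝ))
  have d3 : (0 : ℝ) ≤ c * n := by positivity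
  change |Real.log (sg (RelP c (Rel β)) n) - _| ≤ _
  rw [abs_le]
  constructor <;> linarith

theorem growth_half {G : Type} [Group G] [Group.FG G] {α : ℝ}
    (h : Tendsto (fun n : ℕ => Real.log (sn G n) / lf n) atTop (𝓝 α)) :
    Tendsto (fun n : ℕ => Real.log (sn (Wr G) n) / lf n) atTop (𝓝 (α / 2)) := by
  obtain ⟨C, hC⟩ := sn_upper (G := G)
  have t2 : Tendsto (fun n : ℕ => n / 2) atTop atTop :=
    tendsto_atTop_atTop.2 fun b => ⟨2 * b, fun n hn => by omega⟩
  have t3 : Tendsto Nat.sqrt atTop atTop :=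
    tendsto_atTop_atTop.2 fun b => ⟨b * b, fun n hn => Nat.le_sqrt.2 hn⟩
  have h1 : Tendsto (fun n : ℕ => Real.log (sn G (n / 2)) / lf n) atTop (𝓝 (α / 2)) := by
    have := (h.comp t2).mul tend_half
    rw [mul_one_div] at this
    refine this.congr' ?_
    filter_upwards [t2.eventually lf_ev] with n hn
    simp only [Function.comp]
    field_simp
  refine squeeze (C := C * Real.log 2 + (|α| + 1)) ?_ h1
  have h2 : ∀ᶠ m : ℕ in atTop, Real.log (sn G m) / lf m < |α| + 1 :=
    h.eventually (gt_mem_nhds (by linarith [le_abs_self α]))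
  filter_upwards [eventually_ge_atTop 2, t3.eventually h2, t3.eventually lf_ev] with n hn e1 e2
  have s1 : 1 ≤ n.sqrt := Nat.le_sqrt.2 (by omega)
  have a1 : 1 ≤ sn G (n / 2) := one_le_sn G (by omega)
  have a2 : 1 ≤ sn G n.sqrt := one_le_sn G s1
  have b1 := log_le_nat a1 (sn_lower (G := G) n)
  have b2 := log_le_nat (one_le_sn (Wr G) (by omega)) (hC n hn)
  have c1 : (0 : ℝ) < sn G (n / 2) := by exact_mod_cast a1
  have c2 : (0 : ℝ) < sn G n.sqrt := by exact_mod_cast a2
  push_cast at b2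
  rw [Real.log_mul (by positivity) (by positivity), Real.log_mul c2.ne' c1.ne', Real.log_pow] at b2
  push_cast at b2
  rw [div_lt_iff₀ e2] at e1
  have d1 : lf n.sqrt ≤ n := by
    have s0 : (0 : ℝ) < n.sqrt := by exact_mod_cast s1
    have x1 : Real.log n.sqrt ≤ n.sqrt := (Real.log_le_sub_one_of_pos s0).trans (by linarith)
    have x2 : (n.sqrt : ℝ) * n.sqrt ≤ n := by exact_mod_cast Nat.sqrt_le n
    exact (log_fact_le _).trans ((mul_le_mul_of_nonneg_left x1 s0.le).trans x2)
  have d2 := mul_le_mul_of_nonneg_left d1 (by positivity : 0 ≤ |α| + 1)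
  have d3 : 0 ≤ (C * Real.log 2 + (|α| + 1)) * n := by
    have := Real.log_nonneg one_le_two
    positivity
  rw [abs_le]
  constructor <;> linarith

/-- `α` is the subgroup growth exponent of a finitely generated residually finite group. -/
def Spec (α : ℝ) : Prop :=
  ∃ (G : Type) (_ : Group G), Group.FG G ∧
    (∀ g : G, g ≠ 1 → ∃ H : Subgroup G, H.FiniteIndex ∧ g ∉ H) ∧
    Tendsto (fun n : ℕ => Real.log (sn G n) / lf n) atTop (𝓝 α)

theorem spec_big {α : ℝ} (h : 15552 ≤ α) : Spec α := by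
  have h1 : (⌊α / 72⌋₊ : ℝ) ≤ α / 72 := Nat.floor_le (by positivity)
  have h2 : α / 72 < ⌊α / 72⌋₊ + 1 := Nat.lt_floor_add_one _
  have h3 : (216 : ℝ) ≤ ⌊α / 72⌋₊ := by
    have : 216 ≤ ⌊α / 72⌋₊ := Nat.le_floor (by push_cast; linarith)
    exact_mod_cast this
  generalize ⌊α / 72⌋₊ = c at h1 h2 h3
  have h4 : (0 : ℝ) < c := by linarith
  have := growthP c (3 * (α - 72 * c) / c) (div_nonneg (by linarith) h4.le)
    (by rw [div_le_one h4]; linarith)
  rw [show (c : ℝ) * (72 + 3 * (α - 72 * c) / c / 3) = α by field_simp; ring] at this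
  exact ⟨_, inferInstance, grp_fg _, grp_rf _, this⟩

theorem spec_half {α : ℝ} (h : Spec α) : Spec (α / 2) := by
  obtain ⟨G, _, h1, h2, h3⟩ := h
  exact ⟨Wr G, inferInstance, inferInstance, wr_rf h2, growth_half h3⟩

theorem spec_zero : Spec 0 := by
  refine ⟨Unit, inferInstance, inferInstance, fun g hg => absurd rfl hg, ?_⟩
  refine tendsto_const_nhds.congr' ?_
  filter_upwards [eventually_ge_atTop 1] with n hn
  have h1 : sn Unit n ≤ 1 := (Set.ncard_le_one (Set.toFinite _)).2 fun a _ b _ => Subsingleton.elim a b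
  rw [le_antisymm h1 (one_le_sn Unit hn)]
  simp

theorem spec_iff (α : ℝ) : Spec α ↔ 0 ≤ α := by
  constructor
  · rintro ⟨G, _, -, -, h⟩
    exact ge_of_tendsto' h fun n => div_nonneg (Real.log_natCast_nonneg _) (lf_nonneg n)
  · intro h
    rcases h.eq_or_lt with rfl | h
    · exact spec_zero
    have key : ∀ (j : ℕ) (β : ℝ), 15552 ≤ β * 2 ^ j → Spec β := by
      intro j
      induction j with
      | zero => exact fun β hβ => spec_big (by simpa using hβ)
      | succ j ih =>
        intro β hβ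
        have := spec_half (ih (β * 2) (by rw [pow_succ] at hβ; linarith))
        rwa [mul_div_cancel_right₀ _ two_ne_zero] at this
    obtain ⟨j, hj⟩ := pow_unbounded_of_one_lt (15552 / α) (one_lt_two (α := ℝ))
    rw [div_lt_iff₀ h] at hj
    exact key j α (by linarith)

end Pool.Agent.P.MP_fcd401_al.H7
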